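import Mathlib
import Pool.Agent.H20.GrigG

namespace Pool.Agent.Results.MP_b4aa87_al.Intermediate

def ball {G : Type} [Group G] (S : Set G) (n : ℕ) : Set G :=
  {g | ∃ l : List G, (∀ s ∈ l, s ∈ S ∨ s⁻¹ ∈ S) ∧ l.length ≤ n ∧ l.prod = g}

noncomputable def autGrowth {G : Type} [Group G] (S : Set G) (n : ℕ) : ℕ :=
  {O : Set G | ∃ g ∈ ball S n, O = Set.range fun φ : G ≃* G => φ g}.ncard

def Prec (f g : ℕ → ℕ) : Prop := ∃ c : ℕ, 1 ≤ c ∧ ∀ n, f n ≤ c * g (c * n + c) + c

open Pool.Agent.H20.Grig Filter Topology Real in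
theorem result : ∃ (G : Type) (_ : Group G) (S : Set G), S.Finite ∧ Subgroup.closure S = ⊤ ∧
    (∀ d : ℕ, ¬ Prec (autGrowth S) (fun n => n ^ d)) ∧ ¬ Prec (fun n => 2 ^ n) (autGrowth S) := by
  classical
  let G := Subgroup.closure (Set.range gp)
  have hg : ∀ j, gp j ∈ G := fun j => Subgroup.subset_closure ⟨j, rfl⟩
  let S : Set G := Subtype.val ⁻¹' Set.range gp
  have hb : ∀ n, Subtype.val '' ball S n = B n := by
    intro n
    ext g
    constructor
    · rintro ⟨g, ⟨l, h1, h2, rfl⟩, rfl⟩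
      induction l generalizing n with
      | nil => exact B_one _
      | cons s l ih =>
        obtain ⟨j, hj⟩ : ∃ j, gp j = s.1 := by
          rcases h1 s List.mem_cons_self with ⟨j, hj⟩ | ⟨j, hj⟩
          · exact ⟨j, hj⟩
          · exact ⟨j, by rw [← gp_inv, hj]; simp⟩
        rw [List.prod_cons, Subgroup.coe_mul, ← hj]
        exact B_mul (B_gp j) (ih l.length (fun s hs => h1 s (List.mem_cons_of_mem _ hs)) le_rfl)
          (by rw [add_comm]; exact h2)
    · rintro ⟨l, h1, rfl⟩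
      refine ⟨(l.map fun j => ⟨gp j, hg j⟩).prod, ⟨_, fun s hs => ?_, by simpa using h1, rfl⟩, ?_⟩
      · obtain ⟨j, -, rfl⟩ := List.mem_map.mp hs
        exact Or.inl ⟨j, rfl⟩
      · rw [Subgroup.val_list_prod, List.map_map]; rfl
  have hfin : ∀ n, (ball S n).Finite := fun n =>
    Set.Finite.of_finite_image (hb n ▸ B_fin' n) Subtype.val_injective.injOn
  have ha : ∀ n, autGrowth S n = ((fun g : G => Set.range fun φ : G ≃* G => φ g) '' ball S n).ncard :=
    fun n => by
      unfold autGrowth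
      congr 1
      ext O
      simp [eq_comm]
  refine ⟨G, inferInstance, S, (Set.finite_range gp).preimage Subtype.val_injective.injOn,
    Subgroup.closure_closure_coe_preimage, ?_, ?_⟩
  · rintro d ⟨c, hc, h⟩
    obtain ⟨j, hj⟩ := primes_many (c + 7) d
    set N := 2 ^ j with hN
    have : ∀ P : Finset ℕ, ∃ g : G, P ⊆ Nat.primesLE N →
        g ∈ ball S (12 * ((N + 1) * N) * ((N + 1) * N)) ∧
          ∀ p, p.Prime → (p ∣ orderOf g ↔ p ∈ P) := by
      intro P
      by_cases hP : P ⊆ Nat.primesLE N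
      · obtain ⟨g, h1, h2⟩ := B_ord N P hP
        rw [← hb] at h1
        obtain ⟨g, h1, rfl⟩ := h1
        exact ⟨g, fun _ => ⟨h1, by simpa using h2⟩⟩
      · exact ⟨1, fun h => absurd h hP⟩
    choose γ hγ using this
    have h1 : 2 ^ (Nat.primesLE N).card ≤ autGrowth S (12 * ((N + 1) * N) * ((N + 1) * N)) := by
      rw [ha, ← Finset.card_powerset, ← Set.ncard_coe_finset]
      refine Set.ncard_le_ncard_of_injOn (fun P => Set.range fun φ : G ≃* G => φ (γ P))
        (fun P hP => ⟨_, (hγ P (by simpa using hP)).1, rfl⟩) (fun P hP Q hQ e => ?_)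
        ((hfin _).image _)
      have hP' : P ⊆ Nat.primesLE N := by simpa using hP
      have hQ' : Q ⊆ Nat.primesLE N := by simpa using hQ
      obtain ⟨φ, hφ⟩ : γ P ∈ Set.range fun φ : G ≃* G => φ (γ Q) := by
        simp only at e
        rw [← e]
        exact ⟨MulEquiv.refl _, rfl⟩
      have h2 : orderOf (γ P) = orderOf (γ Q) := by rw [← hφ]; exact φ.orderOf_eq _
      ext p
      constructor
      · intro hp
        have h3 := (Nat.mem_primesLE.mp (hP' hp)).2
        rw [← (hγ Q hQ').2 p h3, ← h2, (hγ P hP').2 p h3]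
        exact hp
      · intro hp
        have h3 := (Nat.mem_primesLE.mp (hQ' hp)).2
        rw [← (hγ P hP').2 p h3, h2, (hγ Q hQ').2 p h3]
        exact hp
    have h2 := h1.trans (h _)
    have h3 : 1 ≤ N := Nat.one_le_two_pow
    have h4 : c ≤ 2 ^ c := Nat.lt_two_pow_self.le
    have h5 : c * (12 * ((N + 1) * N) * ((N + 1) * N)) + c ≤ 2 ^ (c + 7 + 4 * j) := by
      have e1 : (N + 1) * N ≤ 2 * N * N := by nlinarith
      have e2 : 12 * ((N + 1) * N) * ((N + 1) * N) + 1 ≤ 128 * N ^ 4 := by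
        have : 1 ≤ N ^ 4 := Nat.one_le_pow _ _ h3
        nlinarith [Nat.mul_le_mul e1 e1]
      calc _ = c * (12 * ((N + 1) * N) * ((N + 1) * N) + 1) := by ring
        _ ≤ 2 ^ c * (128 * N ^ 4) := Nat.mul_le_mul h4 e2
        _ = _ := by rw [hN]; ring
    have h6 : c * (c * (12 * ((N + 1) * N) * ((N + 1) * N)) + c) ^ d + c ≤
        2 ^ (c + 7 + (c + 7 + 4 * j) * d) := by
      have e1 := Nat.pow_le_pow_left h5 d
      have e2 : 1 ≤ (2 ^ (c + 7 + 4 * j)) ^ d := Nat.one_le_pow _ _ (by positivity)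
      calc _ ≤ 2 ^ c * (2 ^ (c + 7 + 4 * j)) ^ d + 2 ^ c * (2 ^ (c + 7 + 4 * j)) ^ d :=
            Nat.add_le_add (Nat.mul_le_mul h4 e1) (h4.trans (Nat.le_mul_of_pos_right _ e2))
        _ ≤ 2 ^ 7 * (2 ^ c * (2 ^ (c + 7 + 4 * j)) ^ d) := by omega
        _ = _ := by rw [← pow_mul]; ring
    exact absurd ((Nat.pow_le_pow_iff_right (by norm_num)).mp (h2.trans h6)) (not_le.mpr hj)
  · rintro ⟨c, hc, h⟩
    have hc' : (1 : ℝ) ≤ c := by exact_mod_cast hc
    obtain ⟨C, hC⟩ := B_sub (1 / (2 * c)) (by positivity)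
    have t0 : Tendsto (fun n : ℕ => c * n + c) atTop atTop :=
      tendsto_atTop_mono (fun n => by simp only [id]; nlinarith) tendsto_id
    have h1 : exp (1 / 2) / 2 < 1 := by
      rw [div_lt_one two_pos, ← lt_log_iff_exp_lt two_pos]
      linarith [log_two_gt_d9]
    have t1 : Tendsto (fun n : ℕ => c * C * exp (1 / 2) * (exp (1 / 2) / 2) ^ n + c * (1 / 2 : ℝ) ^ n)
        atTop (𝓝 (c * C * exp (1 / 2) * 0 + c * 0)) :=
      ((tendsto_pow_atTop_nhds_zero_of_lt_one (by positivity) h1).const_mul _).add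
        ((tendsto_pow_atTop_nhds_zero_of_lt_one (by norm_num) (by norm_num)).const_mul _)
    obtain ⟨n, h2, h3⟩ := ((t0.eventually hC).and (t1.eventually (gt_mem_nhds
      (show _ < (1 : ℝ) by simp)))).exists
    have h4 : autGrowth S (c * n + c) ≤ (B (c * n + c)).ncard := by
      rw [ha, ← hb, Set.ncard_image_of_injective _ Subtype.val_injective]
      exact Set.ncard_image_le (hfin _)
    have h5 : (2 : ℝ) ^ n ≤ c * (B (c * n + c)).ncard + c := by
      exact_mod_cast (h n).trans (Nat.add_le_add_right (Nat.mul_le_mul_left c h4) c)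
    have h6 : exp (1 / (2 * c) * (c * n + c : ℕ)) = exp (1 / 2) * exp (1 / 2) ^ n := by
      rw [← exp_nat_mul, ← exp_add]
      congr 1
      push_cast
      field_simp
      ring
    rw [h6] at h2
    rw [div_pow, div_pow, one_pow, ← mul_div_assoc, ← mul_div_assoc, ← add_div,
      div_lt_one (by positivity)] at h3
    nlinarith [mul_le_mul_of_nonneg_left h2 (show (0 : ℝ) ≤ c by positivity)]

end Pool.Agent.Results.MP_b4aa87_al.Intermediate
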